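import Mathlib
import Pool.Agent.Helper64.GF343
import Pool.Agent.Helper64.GF343Blocks

/-!
# A nearfield design of order 343 that is not a Galois field design

The Dickson nearfield with 343 elements has a multiplicative subgroup `G` of order 9 whose
design `D(N, Phi, G)` is not isomorphic to `D(343, 9)`.

Proof idea. Call three blocks a triangle if any two of them share at least two points but no
point lies on all three. Triangles are preserved by isomorphisms. The design of the nearfield has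
a triangle (given explicitly below), and `D(343, 9)` has none, which is checked by a kernel
computation (`Pool.Agent.Helper64.GF343.no_triangle`) in an explicit model `K` of the field with
343 elements.
-/

set_option autoImplicit false

namespace Pool.Agent.Results.MP_fd05bb_co.NearfieldDesign343

open Pool.Agent.Helper64.GF343

/-- A (right) nearfield: `(N, +)` is an abelian group, the nonzero elements form a group under
multiplication, `0 * x = x * 0 = 0`, and the right distributive law `(x + y) z = x z + y z`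
holds. -/
class Nearfield (N : Type*) extends AddCommGroup N, GroupWithZero N where
  /-- right distributive law -/
  add_mul' : ∀ x y z : N, (x + y) * z = x * z + y * z

/-- Every field is a nearfield. -/
instance Nearfield.ofField (F : Type*) [Field F] : Nearfield F where
  add_mul' := add_mul

/-- The block set of the design `D(N, Φ, G)`: the images of `G` (as a set of elements of `N`)
under the permutations `x ↦ x * s + a`, `s ∈ S`, `a ∈ N`. -/
def blockSet {N : Type*} [Nearfield N] (S G : Subgroup Nˣ) : Set (Set N) :=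
  {B | ∃ s ∈ S, ∃ a : N, B = {y | ∃ g ∈ G, y = (g : N) * (s : N) + a}}

/-- Two designs (given by their point types and block sets) are isomorphic if some bijection
between their points maps the block set of the first onto the block set of the second. -/
def DesignIso {X Y : Type*} (𝓑 : Set (Set X)) (𝓒 : Set (Set Y)) : Prop :=
  ∃ f : X ≃ Y, (fun B : Set X => f '' B) '' 𝓑 = 𝓒

/-! ### The distinguishing configuration -/

/-- Three blocks, any two of which share at least two points, without a common point. -/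
def Tri {X : Type*} (𝓑 : Set (Set X)) : Prop :=
  ∃ A ∈ 𝓑, ∃ B ∈ 𝓑, ∃ C ∈ 𝓑, (A ∩ B).Nontrivial ∧ (A ∩ C).Nontrivial ∧ (B ∩ C).Nontrivial ∧
    A ∩ B ∩ C = ∅

theorem Tri.map {X Y : Type*} {𝓑 : Set (Set X)} {𝓒 : Set (Set Y)} (h : DesignIso 𝓑 𝓒)
    (hT : Tri 𝓑) : Tri 𝓒 := by
  obtain ⟨f, rfl⟩ := h
  obtain ⟨A, hA, B, hB, C, hC, h1, h2, h3, h4⟩ := hT
  refine ⟨_, ⟨A, hA, rfl⟩, _, ⟨B, hB, rfl⟩, _, ⟨C, hC, rfl⟩, ?_, ?_, ?_, ?_⟩
  · show (f '' A ∩ f '' B).Nontrivial
    rw [← Set.image_inter f.injective]; exact h1.image f.injective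
  · show (f '' A ∩ f '' C).Nontrivial
    rw [← Set.image_inter f.injective]; exact h2.image f.injective
  · show (f '' B ∩ f '' C).Nontrivial
    rw [← Set.image_inter f.injective]; exact h3.image f.injective
  · show f '' A ∩ f '' B ∩ f '' C = ∅
    rw [← Set.image_inter f.injective, ← Set.image_inter f.injective, h4, Set.image_empty]

/-! ### The Dickson nearfield of order 343 -/

theorem pow_343 (x : K) : x ^ 343 = x := by
  by_cases hx : x = 0
  · subst hx; exact zero_pow (by norm_num)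
  · rw [pow_succ, K.pow_342 x hx, one_mul]

theorem chi_cases : ∀ w : K, w ≠ 0 → pw114 w = 1 ∨ pw114 w = 2 ∨ pw114 w = 4 := by
  decide +kernel

theorem chi_cases' (w : K) (hw : w ≠ 0) : w ^ 114 = 1 ∨ w ^ 114 = 2 ∨ w ^ 114 = 4 := by
  rw [← pw114_eq_pow]; exact chi_cases w hw

theorem two_ne_one : (2 : K) ≠ 1 := by decide
theorem four_ne_one : (4 : K) ≠ 1 := by decide
theorem four_ne_two : (4 : K) ≠ 2 := by decide
theorem two_pow_seven : (2 : K) ^ 7 = 2 := by decide
theorem four_pow_seven : (4 : K) ^ 7 = 4 := by decide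
theorem two_mul_four : (2 : K) * 4 = 1 := by decide
theorem two_mul_two : (2 : K) * 2 = 4 := by decide
theorem four_mul_four : (4 : K) * 4 = 2 := by decide

/-- the exponent of the field automorphism attached to `w` -/
noncomputable def ex (w : K) : ℕ := if w ^ 114 = 1 then 1 else if w ^ 114 = 2 then 7 else 49

/-- nearfield multiplication -/
noncomputable def nmul (x w : K) : K := x ^ ex w * w

theorem ex_one {w : K} (h : w ^ 114 = 1) : ex w = 1 := by simp [ex, h]
theorem ex_two {w : K} (h : w ^ 114 = 2) : ex w = 7 := by simp [ex, h, two_ne_one]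
theorem ex_four {w : K} (h : w ^ 114 = 4) : ex w = 49 := by
  simp [ex, h, four_ne_one, four_ne_two]

theorem ex_ne_zero (w : K) : ex w ≠ 0 := by
  unfold ex; split_ifs <;> norm_num

theorem add_pow_ex (x y w : K) : (x + y) ^ ex w = x ^ ex w + y ^ ex w := by
  have h7 : ∀ a b : K, (a + b) ^ 7 = a ^ 7 + b ^ 7 := fun a b => add_pow_char a b 7
  unfold ex; split_ifs
  · simp
  · exact h7 x y
  · have : (49 : ℕ) = 7 * 7 := by norm_num
    rw [this, pow_mul, pow_mul, pow_mul, h7, h7]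

theorem nmul_add (x y z : K) : nmul (x + y) z = nmul x z + nmul y z := by
  unfold nmul; rw [add_pow_ex, add_mul]

theorem nmul_zero (x : K) : nmul x 0 = 0 := by simp [nmul]
theorem zero_nmul (x : K) : nmul 0 x = 0 := by
  simp [nmul, zero_pow (ex_ne_zero x)]
theorem nmul_one (x : K) : nmul x 1 = x := by
  have : ex (1 : K) = 1 := ex_one (one_pow _)
  simp [nmul, this]
theorem one_nmul (x : K) : nmul 1 x = x := by simp [nmul]

theorem chi_pow_ex (y z : K) (hy : y ≠ 0) : (y ^ 114) ^ ex z = y ^ 114 := by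
  have h49 : (49 : ℕ) = 7 * 7 := by norm_num
  rcases chi_cases' y hy with h | h | h <;> rw [h]
  · simp
  · unfold ex; split_ifs
    · simp
    · exact two_pow_seven
    · rw [h49, pow_mul, two_pow_seven, two_pow_seven]
  · unfold ex; split_ifs
    · simp
    · exact four_pow_seven
    · rw [h49, pow_mul, four_pow_seven, four_pow_seven]

theorem chi_nmul (y z : K) (hy : y ≠ 0) : (nmul y z) ^ 114 = y ^ 114 * z ^ 114 := by
  unfold nmul
  rw [mul_pow, ← pow_mul, mul_comm (ex z) 114, pow_mul, chi_pow_ex y z hy]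

theorem pow_ex_nmul (x y z : K) (hy : y ≠ 0) (hz : z ≠ 0) :
    x ^ ex (nmul y z) = x ^ (ex y * ex z) := by
  have hc := chi_nmul y z hy
  have h343 := pow_343 x
  rcases chi_cases' y hy with h | h | h <;> rcases chi_cases' z hz with h' | h' | h' <;>
    rw [h, h'] at hc
  · rw [ex_one h, ex_one h', ex_one (by rw [hc, one_mul])]
  · rw [ex_one h, ex_two h', ex_two (by rw [hc, one_mul])]
  · rw [ex_one h, ex_four h', ex_four (by rw [hc, one_mul])]
  · rw [ex_two h, ex_one h', ex_two (by rw [hc, mul_one])]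
  · rw [ex_two h, ex_two h', ex_four (by rw [hc, two_mul_two])]
  · rw [ex_two h, ex_four h', ex_one (by rw [hc, two_mul_four])]
    rw [pow_one]; exact h343.symm
  · rw [ex_four h, ex_one h', ex_four (by rw [hc, mul_one])]
  · rw [ex_four h, ex_two h', ex_one (by rw [hc, mul_comm, two_mul_four])]
    rw [pow_one]; exact h343.symm
  · rw [ex_four h, ex_four h', ex_two (by rw [hc, four_mul_four])]
    have : (49 * 49 : ℕ) = 343 * 7 := by norm_num
    rw [this, pow_mul, h343]

theorem nmul_assoc (x y z : K) : nmul (nmul x y) z = nmul x (nmul y z) := by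
  by_cases hz : z = 0
  · subst hz; simp [nmul_zero]
  by_cases hy : y = 0
  · subst hy; simp [nmul_zero, zero_nmul]
  have h := pow_ex_nmul x y z hy hz
  show (x ^ ex y * y) ^ ex z * z = x ^ ex (nmul y z) * (y ^ ex z * z)
  rw [h, mul_pow, ← pow_mul, mul_assoc]

/-- the exponent for the inverse -/
noncomputable def ex' (w : K) : ℕ := if w ^ 114 = 1 then 1 else if w ^ 114 = 2 then 49 else 7

/-- nearfield inverse -/
noncomputable def ninv (x : K) : K := (x ^ 341) ^ ex' x

theorem ex'_ne_zero (w : K) : ex' w ≠ 0 := by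
  unfold ex'; split_ifs <;> norm_num

theorem ninv_zero : ninv 0 = 0 := by
  unfold ninv
  rw [zero_pow (by norm_num : (341 : ℕ) ≠ 0), zero_pow (ex'_ne_zero 0)]

theorem nmul_ninv (x : K) (hx : x ≠ 0) : nmul x (ninv x) = 1 := by
  have h1 : x * x ^ 341 = 1 := by rw [← pow_succ']; exact K.pow_342 x hx
  have key : ∀ n : ℕ, x ^ n * (x ^ 341) ^ n = 1 := fun n => by rw [← mul_pow, h1, one_pow]
  have hch : x ^ 114 * (x ^ 341) ^ 114 = 1 := key 114
  have e2 : (2 : K) * 4 = 1 := two_mul_four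
  have h49 : (49 : ℕ) = 7 * 7 := by norm_num
  rcases chi_cases' x hx with h | h | h
  · have e : ex' x = 1 := by simp [ex', h]
    have hi : (ninv x) ^ 114 = 1 := by
      unfold ninv; rw [e, pow_one]; rw [h, one_mul] at hch; exact hch
    unfold nmul; rw [ex_one hi]; unfold ninv; rw [e]; exact key 1
  · have e : ex' x = 49 := by simp [ex', h, two_ne_one]
    have h4 : (x ^ 341) ^ 114 = 4 := by
      rw [h] at hch
      calc (x ^ 341) ^ 114 = 4 * (2 * (x ^ 341) ^ 114) := by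
            rw [← mul_assoc, mul_comm (4 : K) 2, e2, one_mul]
        _ = 4 := by rw [hch, mul_one]
    have hi : (ninv x) ^ 114 = 4 := by
      unfold ninv
      rw [e, ← pow_mul, mul_comm 49 114, pow_mul, h4, h49, pow_mul, four_pow_seven,
        four_pow_seven]
    unfold nmul; rw [ex_four hi]; unfold ninv; rw [e]; exact key 49
  · have e : ex' x = 7 := by simp [ex', h, four_ne_one, four_ne_two]
    have h4 : (x ^ 341) ^ 114 = 2 := by
      rw [h] at hch
      calc (x ^ 341) ^ 114 = 2 * (4 * (x ^ 341) ^ 114) := by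
            rw [← mul_assoc, e2, one_mul]
        _ = 2 := by rw [hch, mul_one]
    have hi : (ninv x) ^ 114 = 2 := by
      unfold ninv
      rw [e, ← pow_mul, mul_comm 7 114, pow_mul, h4, two_pow_seven]
    unfold nmul; rw [ex_two hi]; unfold ninv; rw [e]; exact key 7

/-- The underlying type of the Dickson nearfield: a copy of `K`. -/
@[ext] structure NK where
  /-- the element of `K` -/
  k : K

namespace NK

theorem k_injective : Function.Injective NK.k := fun _ _ h => NK.ext h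

instance : Zero NK := ⟨⟨0⟩⟩
instance : Add NK := ⟨fun x y => ⟨x.k + y.k⟩⟩
instance : Neg NK := ⟨fun x => ⟨-x.k⟩⟩
instance : One NK := ⟨⟨1⟩⟩
noncomputable instance : Mul NK := ⟨fun x y => ⟨nmul x.k y.k⟩⟩
noncomputable instance : Inv NK := ⟨fun x => ⟨ninv x.k⟩⟩

theorem k_zero : (0 : NK).k = 0 := rfl
theorem k_one : (1 : NK).k = 1 := rfl
theorem k_add (x y : NK) : (x + y).k = x.k + y.k := rfl
theorem k_neg (x : NK) : (-x).k = -x.k := rfl
theorem k_mul (x y : NK) : (x * y).k = nmul x.k y.k := rfl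
theorem k_inv (x : NK) : (x⁻¹).k = ninv x.k := rfl

noncomputable instance instNearfieldNK : Nearfield NK where
  add_assoc x y z := NK.ext (add_assoc _ _ _)
  zero_add x := NK.ext (zero_add _)
  add_zero x := NK.ext (add_zero _)
  add_comm x y := NK.ext (add_comm _ _)
  neg_add_cancel x := NK.ext (neg_add_cancel _)
  nsmul := nsmulRec
  zsmul := zsmulRec
  mul_assoc x y z := NK.ext (nmul_assoc _ _ _)
  one_mul x := NK.ext (one_nmul _)
  mul_one x := NK.ext (nmul_one _)
  zero_mul x := NK.ext (zero_nmul _)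
  mul_zero x := NK.ext (nmul_zero _)
  exists_pair_ne := ⟨0, 1, fun h => K.zero_ne_one' (congrArg NK.k h)⟩
  inv_zero := NK.ext ninv_zero
  mul_inv_cancel x hx := NK.ext (nmul_ninv _ (fun h => hx (NK.ext h)))
  npow := npowRec
  zpow := zpowRec
  add_mul' x y z := NK.ext (nmul_add _ _ _)

/-- `NK` has as many elements as `K` -/
def equivK : NK ≃ K where
  toFun := NK.k
  invFun := NK.mk
  left_inv _ := rfl
  right_inv _ := rfl

end NK

/-- the nine elements of `G` -/
def Glist : List K :=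
  [⟨1, 0, 0⟩, ⟨2, 0, 0⟩, ⟨4, 0, 0⟩, ⟨3, 1, 0⟩, ⟨6, 2, 0⟩, ⟨5, 4, 0⟩, ⟨4, 4, 3⟩, ⟨2, 2, 5⟩,
    ⟨1, 1, 6⟩]

theorem Glist_mul : ∀ x ∈ Glist, ∀ y ∈ Glist, nmul x y ∈ Glist := by decide +kernel

theorem Glist_inv : ∀ x ∈ Glist, ∃ y ∈ Glist, nmul x y = 1 := by decide +kernel

theorem Glist_ne_zero : ∀ x ∈ Glist, x ≠ 0 := by decide +kernel

theorem Glist_pow : ∀ x ∈ Glist, pw171 x = 1 := by decide +kernel

theorem one_mem_Glist : (1 : K) ∈ Glist := by decide +kernel

theorem nmul_pow_171 (x y : K) (hx : x ^ 171 = 1) (hy : y ^ 171 = 1) :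
    (nmul x y) ^ 171 = 1 := by
  unfold nmul
  rw [mul_pow, hy, mul_one, ← pow_mul, mul_comm, pow_mul, hx, one_pow]

theorem ninv_pow_171 (x : K) (hx : x ^ 171 = 1) : (ninv x) ^ 171 = 1 := by
  unfold ninv
  rw [← pow_mul, ← pow_mul]
  have h : 341 * (ex' x * 171) = 171 * (341 * ex' x) := by ring
  rw [h, pow_mul, hx, one_pow]

/-- the element of `K` underlying a unit of `NK` -/
def toK (u : NKˣ) : K := (u : NK).k

theorem toK_mul (u v : NKˣ) : toK (u * v) = nmul (toK u) (toK v) := by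
  unfold toK; rw [Units.val_mul]; rfl
theorem toK_one : toK 1 = 1 := by
  unfold toK; rw [Units.val_one]; rfl
theorem toK_inv (u : NKˣ) : toK u⁻¹ = ninv (toK u) := by
  unfold toK; rw [Units.val_inv_eq_inv_val]; rfl
theorem toK_ne_zero (u : NKˣ) : toK u ≠ 0 := fun h => u.ne_zero (NK.ext h)
theorem toK_injective : Function.Injective toK := fun _ _ h => Units.ext (NK.ext h)

/-- a nonzero element of `K` as a unit of the nearfield -/
noncomputable def ofK (x : K) (hx : x ≠ 0) : NKˣ :=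
  Units.mk0 (⟨x⟩ : NK) (fun h => hx (congrArg NK.k h))

theorem toK_ofK (x : K) (hx : x ≠ 0) : toK (ofK x hx) = x := rfl

/-- The subgroup of order 171. -/
noncomputable def SN : Subgroup NKˣ where
  carrier := {u | toK u ^ 171 = 1}
  mul_mem' := by
    intro u v hu hv
    show toK (u * v) ^ 171 = 1
    rw [toK_mul]; exact nmul_pow_171 _ _ hu hv
  one_mem' := by show toK 1 ^ 171 = 1; rw [toK_one, one_pow]
  inv_mem' := by
    intro u hu
    show toK u⁻¹ ^ 171 = 1
    rw [toK_inv]; exact ninv_pow_171 _ hu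

theorem mem_SN (u : NKˣ) : u ∈ SN ↔ toK u ^ 171 = 1 := Iff.rfl

/-- The subgroup of order 9. -/
noncomputable def GN : Subgroup NKˣ where
  carrier := {u | toK u ∈ Glist}
  mul_mem' := by
    intro u v hu hv
    show toK (u * v) ∈ Glist
    rw [toK_mul]; exact Glist_mul _ hu _ hv
  one_mem' := by show toK 1 ∈ Glist; rw [toK_one]; exact one_mem_Glist
  inv_mem' := by
    intro u hu
    show toK u⁻¹ ∈ Glist
    obtain ⟨y, hy, h⟩ := Glist_inv _ hu
    have h1 : u * ofK y (Glist_ne_zero y hy) = 1 := toK_injective (by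
      rw [toK_mul, toK_ofK, toK_one]; exact h)
    have h2 : u⁻¹ = ofK y (Glist_ne_zero y hy) := inv_eq_of_mul_eq_one_right h1
    rw [h2, toK_ofK]; exact hy

theorem mem_GN (u : NKˣ) : u ∈ GN ↔ toK u ∈ Glist := Iff.rfl

theorem GN_le_SN : GN ≤ SN := by
  intro u hu
  rw [mem_SN, ← pw171_eq_pow]; exact Glist_pow _ hu

theorem card_NK : Nat.card NK = 343 := by
  rw [Nat.card_congr NK.equivK, Nat.card_eq_fintype_card, K.card_K]

theorem ne_zero_of_pow {x : K} {n : ℕ} (hn : n ≠ 0) (h : x ^ n = 1) : x ≠ 0 := by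
  rintro rfl
  rw [zero_pow hn] at h
  exact K.zero_ne_one' h

theorem card_SN : Nat.card SN = 171 := by
  have e : SN ≃ (Finset.univ.filter (fun x : K => pw171 x = 1)) :=
    { toFun := fun u => ⟨toK u.1, by
        rw [Finset.mem_filter, pw171_eq_pow]; exact ⟨Finset.mem_univ _, u.2⟩⟩
      invFun := fun x =>
        have h : x.1 ^ 171 = 1 := by
          rw [← pw171_eq_pow]; exact (Finset.mem_filter.1 x.2).2
        ⟨ofK x.1 (ne_zero_of_pow (by norm_num) h), h⟩
      left_inv := fun u => Subtype.ext (toK_injective (toK_ofK (toK u.1) (toK_ne_zero u.1)))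
      right_inv := fun x => Subtype.ext rfl }
  rw [Nat.card_congr e, Nat.card_eq_fintype_card, Fintype.card_coe, card_sq]

theorem card_Glist : Glist.toFinset.card = 9 := by decide +kernel

theorem card_GN : Nat.card GN = 9 := by
  have e : GN ≃ Glist.toFinset :=
    { toFun := fun u => ⟨toK u.1, List.mem_toFinset.2 u.2⟩
      invFun := fun x => ⟨ofK x.1 (Glist_ne_zero _ (List.mem_toFinset.1 x.2)),
        List.mem_toFinset.1 x.2⟩
      left_inv := fun u => Subtype.ext (toK_injective (toK_ofK (toK u.1) (toK_ne_zero u.1)))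
      right_inv := fun x => Subtype.ext rfl }
  rw [Nat.card_congr e, Nat.card_eq_fintype_card, Fintype.card_coe, card_Glist]

/-- the block `G * s + a` as a list of elements of `K` -/
noncomputable def nblk (s a : K) : List K := Glist.map (fun g => nmul g s + a)

theorem nblk_mem_blockSet (s a : K) (hs : pw171 s = 1) :
    ({y : NK | y.k ∈ nblk s a} : Set NK) ∈ blockSet SN GN := by
  rw [pw171_eq_pow] at hs
  have hs0 : s ≠ 0 := ne_zero_of_pow (by norm_num) hs
  refine ⟨ofK s hs0, hs, ⟨a⟩, ?_⟩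
  ext y
  constructor
  · intro hy
    obtain ⟨g, hg, h⟩ := List.mem_map.1 hy
    exact ⟨ofK g (Glist_ne_zero g hg), hg, NK.ext h.symm⟩
  · rintro ⟨g, hg, h⟩
    exact List.mem_map.2 ⟨toK g, hg, (congrArg NK.k h).symm⟩

theorem nontriv_of_list {l m : List K} (x y : K) (hxy : x ≠ y) (hx : x ∈ l) (hx' : x ∈ m)
    (hy : y ∈ l) (hy' : y ∈ m) :
    (({z : NK | z.k ∈ l} : Set NK) ∩ {z : NK | z.k ∈ m}).Nontrivial :=
  ⟨⟨x⟩, ⟨hx, hx'⟩, ⟨y⟩, ⟨hy, hy'⟩, fun h => hxy (congrArg NK.k h)⟩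

theorem tri_NK : Tri (blockSet SN GN) := by
  refine ⟨_, nblk_mem_blockSet 1 0 (by decide +kernel),
    _, nblk_mem_blockSet ⟨3, 3, 1⟩ ⟨1, 1, 2⟩ (by decide +kernel),
    _, nblk_mem_blockSet ⟨3, 1, 1⟩ ⟨4, 5, 1⟩ (by decide +kernel), ?_, ?_, ?_, ?_⟩
  · exact nontriv_of_list ⟨5, 4, 0⟩ ⟨4, 4, 3⟩ (by decide +kernel) (by decide +kernel)
      (by decide +kernel) (by decide +kernel) (by decide +kernel)
  · exact nontriv_of_list ⟨3, 1, 0⟩ ⟨2, 2, 5⟩ (by decide +kernel) (by decide +kernel)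
      (by decide +kernel) (by decide +kernel) (by decide +kernel)
  · exact nontriv_of_list ⟨2, 4, 6⟩ ⟨3, 0, 3⟩ (by decide +kernel) (by decide +kernel)
      (by decide +kernel) (by decide +kernel) (by decide +kernel)
  · have h : ∀ x ∈ nblk 1 0, x ∈ nblk ⟨3, 3, 1⟩ ⟨1, 1, 2⟩ → x ∉ nblk ⟨3, 1, 1⟩ ⟨4, 5, 1⟩ := by
      decide +kernel
    rw [Set.eq_empty_iff_forall_notMem]
    rintro x ⟨⟨h1, h2⟩, h3⟩
    exact h x.k h1 h2 h3

/-! ### The Galois field design has no triangle -/

section FieldPart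

variable {F : Type*} [Field F]

theorem mem_base_iff (e : K ≃+* F) (G' : Subgroup Fˣ)
    (hG : ∀ u : Fˣ, u ∈ G' ↔ (u : F) ^ 9 = 1) (s₀ : Fˣ) (a₀ y : F) :
    (∃ g ∈ G', y = (g : F) * (s₀ : F) + a₀) ↔ e.symm ((y - a₀) * (s₀ : F)⁻¹) ∈ C9 := by
  have hs : (s₀ : F) ≠ 0 := s₀.ne_zero
  constructor
  · rintro ⟨g, hg, rfl⟩
    have h : ((g : F) * s₀ + a₀ - a₀) * (s₀ : F)⁻¹ = g := by field_simp; ring
    rw [h]
    apply mem_C9
    rw [pw9_eq_pow, ← map_pow, (hG g).1 hg, map_one]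
  · intro h
    have h9 := C9_pow _ h
    rw [pw9_eq_pow, ← map_pow] at h9
    have h9' : ((y - a₀) * (s₀ : F)⁻¹) ^ 9 = 1 := by
      have := congrArg e h9
      rwa [RingEquiv.apply_symm_apply, map_one] at this
    have hne : (y - a₀) * (s₀ : F)⁻¹ ≠ 0 := by
      intro h0; rw [h0, zero_pow (by norm_num)] at h9'; exact zero_ne_one h9'
    refine ⟨Units.mk0 _ hne, (hG _).2 h9', ?_⟩
    rw [Units.val_mk0]; field_simp; ring

theorem mem_block_iff (e : K ≃+* F) (G' : Subgroup Fˣ)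
    (hG : ∀ u : Fˣ, u ∈ G' ↔ (u : F) ^ 9 = 1) (s₀ : Fˣ) (a₀ : F) (s₁ : Fˣ) (a₁ : F) (z : F)
    (g₁ : Fˣ) (hg₁ : g₁ ∈ G') (hz : z = (g₁ : F) * (s₁ : F) + a₁) (y : F) :
    (∃ g ∈ G', y = (g : F) * (s₁ : F) + a₁) ↔
      e.symm ((y - a₀) * (s₀ : F)⁻¹) ∈
        fblk (e.symm ((g₁ : F) * s₁ * (s₀ : F)⁻¹)) (e.symm ((z - a₀) * (s₀ : F)⁻¹)) := by
  have hs : (s₀ : F) ≠ 0 := s₀.ne_zero
  have hg0 : (g₁ : F) ≠ 0 := g₁.ne_zero
  constructor
  · rintro ⟨g, hg, rfl⟩
    refine List.mem_map.2 ⟨e.symm ((g : F) * (g₁ : F)⁻¹), ?_, ?_⟩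
    · apply mem_C9
      have h : ((g : F) * (g₁ : F)⁻¹) ^ 9 = 1 := by
        rw [mul_pow, inv_pow, (hG g).1 hg, (hG g₁).1 hg₁, inv_one, mul_one]
      rw [pw9_eq_pow, ← map_pow, h, map_one]
    · rw [← map_mul, ← map_neg, ← map_add, ← map_add]
      congr 1
      rw [hz]; field_simp; ring
  · intro h
    obtain ⟨c, hc, h⟩ := List.mem_map.1 h
    have h9 := C9_pow _ hc
    rw [pw9_eq_pow] at h9
    have h9' : (e c) ^ 9 = 1 := by rw [← map_pow, h9, map_one]
    have hne : e c ≠ 0 := by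
      intro h0; rw [h0, zero_pow (by norm_num)] at h9'; exact zero_ne_one h9'
    refine ⟨Units.mk0 _ hne * g₁, mul_mem ((hG _).2 h9') hg₁, ?_⟩
    have h' := congrArg e h
    rw [map_add, map_mul, map_add, map_neg, RingEquiv.apply_symm_apply,
      RingEquiv.apply_symm_apply, RingEquiv.apply_symm_apply] at h'
    rw [Units.val_mul, Units.val_mk0]
    rw [hz] at h'
    field_simp at h'
    linear_combination -h'

theorem pow_171_of_pow_9 {x : F} (h : x ^ 9 = 1) : x ^ 171 = 1 := by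
  have : (171 : ℕ) = 9 * 19 := by norm_num
  rw [this, pow_mul, h, one_pow]

theorem not_tri_of_equiv (e : K ≃+* F) (S' G' : Subgroup Fˣ)
    (hG : ∀ u : Fˣ, u ∈ G' ↔ (u : F) ^ 9 = 1) (hS : ∀ u : Fˣ, u ∈ S' → (u : F) ^ 171 = 1) :
    ¬ Tri (blockSet (N := F) S' G') := by
  rintro ⟨A, ⟨s₀, hs₀, a₀, rfl⟩, B, ⟨s₁, hs₁, a₁, rfl⟩, C, ⟨s₂, hs₂, a₂, rfl⟩, h1, h2, h3, h4⟩
  have hA := mem_base_iff e G' hG s₀ a₀
  have hinj : Function.Injective (fun y : F => e.symm ((y - a₀) * (s₀ : F)⁻¹)) := by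
    intro x y h
    have h' := e.symm.injective h
    have hs : (s₀ : F)⁻¹ ≠ 0 := inv_ne_zero s₀.ne_zero
    exact sub_left_injective (mul_right_cancel₀ hs h')
  obtain ⟨z, ⟨hzA, hzB⟩, w, ⟨hwA, hwB⟩, hzw⟩ := h1
  obtain ⟨z', ⟨hzA', hzC'⟩, w', ⟨hwA', hwC'⟩, hzw'⟩ := h2
  obtain ⟨u, ⟨huB, huC⟩, v, ⟨hvB, hvC⟩, huv⟩ := h3
  obtain ⟨g₁, hg₁, hz⟩ := id hzB
  obtain ⟨g₂, hg₂, hz'⟩ := id hzC'
  have hB := mem_block_iff e G' hG s₀ a₀ s₁ a₁ z g₁ hg₁ hz
  have hC := mem_block_iff e G' hG s₀ a₀ s₂ a₂ z' g₂ hg₂ hz'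
  have hpow : ∀ g s : Fˣ, g ∈ G' → s ∈ S' →
      (e.symm ((g : F) * s * (s₀ : F)⁻¹)) ^ 171 = 1 := by
    intro g s hg hs
    rw [← map_pow, mul_pow, mul_pow, inv_pow, pow_171_of_pow_9 ((hG g).1 hg), hS s hs,
      hS s₀ hs₀, inv_one, mul_one, mul_one, map_one]
  have h9 : ∀ y : F, (∃ g ∈ G', y = (g : F) * (s₀ : F) + a₀) →
      (e.symm ((y - a₀) * (s₀ : F)⁻¹)) ^ 9 = 1 := by
    intro y hy
    rw [← pw9_eq_pow]; exact C9_pow _ ((hA y).1 hy)
  obtain ⟨x, hx0, hx1, hx2⟩ := no_triangle _ _ _ _ (hpow g₁ s₁ hg₁ hs₁) (h9 z hzA)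
    (hpow g₂ s₂ hg₂ hs₂) (h9 z' hzA')
    ⟨_, _, fun h => hzw (hinj h), (hA z).1 hzA, (hB z).1 hzB, (hA w).1 hwA, (hB w).1 hwB⟩
    ⟨_, _, fun h => hzw' (hinj h), (hA z').1 hzA', (hC z').1 hzC', (hA w').1 hwA',
      (hC w').1 hwC'⟩
    ⟨_, _, fun h => huv (hinj h), (hB u).1 huB, (hC u).1 huC, (hB v).1 hvB, (hC v).1 hvC⟩
  have hy : e.symm ((e x * (s₀ : F) + a₀ - a₀) * (s₀ : F)⁻¹) = x := by
    have hs : (s₀ : F) ≠ 0 := s₀.ne_zero
    have : (e x * (s₀ : F) + a₀ - a₀) * (s₀ : F)⁻¹ = e x := by field_simp; ring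
    rw [this, RingEquiv.symm_apply_apply]
  have hmem : e x * (s₀ : F) + a₀ ∈ ({y | ∃ g ∈ G', y = (g : F) * (s₀ : F) + a₀} ∩
      {y | ∃ g ∈ G', y = (g : F) * (s₁ : F) + a₁} ∩
      {y | ∃ g ∈ G', y = (g : F) * (s₂ : F) + a₂} : Set F) := by
    refine ⟨⟨(hA _).2 ?_, (hB _).2 ?_⟩, (hC _).2 ?_⟩
    · rw [hy]; exact hx0
    · rw [hy]; exact hx1
    · rw [hy]; exact hx2
  exact Set.eq_empty_iff_forall_notMem.1 h4 _ hmem

theorem not_tri_field (F : Type*) [Field F] (S' G' : Subgroup Fˣ) (hF : Nat.card F = 343)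
    (hS : Nat.card S' = 171) (hG : Nat.card G' = 9) : ¬ Tri (blockSet (N := F) S' G') := by
  have : Finite F := Nat.finite_of_card_ne_zero (by rw [hF]; norm_num)
  have : Fintype F := Fintype.ofFinite F
  have hF' : Fintype.card K = Fintype.card F := by
    rw [K.card_K, ← Nat.card_eq_fintype_card, hF]
  have e : K ≃+* F := FiniteField.ringEquivOfCardEq hF'
  have hG1 : ∀ u : Fˣ, u ∈ G' → u ^ 9 = 1 := by
    intro u hu
    have h := pow_card_eq_one' (G := G') (x := ⟨u, hu⟩)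
    rw [hG] at h
    exact congrArg Subtype.val h
  have hS1 : ∀ u : Fˣ, u ∈ S' → (u : F) ^ 171 = 1 := by
    intro u hu
    have h := pow_card_eq_one' (G := S') (x := ⟨u, hu⟩)
    rw [hS] at h
    have h' : u ^ 171 = 1 := congrArg Subtype.val h
    rw [← Units.val_pow_eq_pow_val, h', Units.val_one]
  have hset : (G' : Set Fˣ) = {u : Fˣ | u ^ 9 = 1} := by
    apply Set.eq_of_subset_of_ncard_le
    · intro u hu; exact hG1 u hu
    · have h1 : (G' : Set Fˣ).ncard = 9 := by
        rw [← Nat.card_coe_set_eq]; exact hG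
      rw [h1]
      classical
      have h2 := IsCyclic.card_pow_eq_one_le (α := Fˣ) (n := 9) (by norm_num)
      calc ({u : Fˣ | u ^ 9 = 1} : Set Fˣ).ncard
          = (Finset.univ.filter (fun u : Fˣ => u ^ 9 = 1)).card := by
            rw [← Set.ncard_coe_finset]; congr 1; ext u; simp
        _ ≤ 9 := h2
    · exact Set.toFinite _
  refine not_tri_of_equiv e S' G' (fun u => ?_) hS1
  have h3 : u ∈ G' ↔ u ^ 9 = 1 := by
    rw [← SetLike.mem_coe, hset]; rfl
  rw [h3, ← Units.val_pow_eq_pow_val, Units.val_eq_one]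

end FieldPart

/-- The answer to Q1: there are a nearfield `N` with `343 = 7^3` elements, the subgroup `S` of
its multiplicative group of order `(343 - 1) / 2 = 171`, and a subgroup `G ≤ S` of order `9`,
such that `D(N, Φ, G)` is not isomorphic to `D(343, 9)`: for every field `F` with 343 elements
and its multiplicative subgroups `S'`, `G'` of orders 171 and 9 the designs are not
isomorphic. -/
theorem result :
    ∃ (N : Type) (_ : Nearfield N) (S G : Subgroup Nˣ),
      Nat.card N = 343 ∧ Nat.card S = (Nat.card N - 1) / 2 ∧ G ≤ S ∧ Nat.card G = 9 ∧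
      ∀ (F : Type) (_ : Field F) (S' G' : Subgroup Fˣ), Nat.card F = Nat.card N →
        Nat.card S' = (Nat.card N - 1) / 2 → Nat.card G' = Nat.card G →
        ¬ DesignIso (blockSet S G) (blockSet (N := F) S' G') := by
  refine ⟨NK, NK.instNearfieldNK, SN, GN, card_NK, ?_, GN_le_SN, card_GN, ?_⟩
  · rw [card_SN, card_NK]
  · intro F _ S' G' hF hS hG hiso
    rw [card_NK] at hF hS
    rw [card_GN] at hG
    exact not_tri_field F S' G' hF (by rw [hS]) hG (Tri.map hiso tri_NK)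

end Pool.Agent.Results.MP_fd05bb_co.NearfieldDesign343
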